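import Pool.Agent.W314.BA.Stm

/-!
BA-GA: the spectral gap of the ball average, from the covering property.
-/

set_option autoImplicit false

open MeasureTheory Set Filter Topology Real
open scoped ENNReal NNReal

namespace Pool.Agent.W397.BA

open Pool.Agent.W314.BA

noncomputable section

theorem ee_norm (t : ℝ) : ‖ee t‖ = 1 := by
  unfold ee
  rw [Complex.norm_exp]
  simp

theorem ee_add (s t : ℝ) : ee (s + t) = ee s * ee t := by
  unfold ee
  rw [← Complex.exp_add]
  congr 1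
  push_cast
  ring

theorem ee_zero : ee 0 = 1 := by
  unfold ee
  simp

theorem ee_cont : Continuous ee := by
  unfold ee
  fun_prop

variable {Y : Type} [MeasurableSpace Y] [MulAction G Y] {μ : Measure Y} {c : G → Y → ℤ}

/-- bounded measurable functions are integrable -/
theorem bint {Z : Type} [MeasurableSpace Z] {E : Type} [NormedAddCommGroup E]
    {ν : Measure Z} [IsFiniteMeasure ν] {F : Z → E} (hF : AEStronglyMeasurable F ν) (C : ℝ)
    (h : ∀ z, ‖F z‖ ≤ C) : Integrable F ν :=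
  Integrable.of_bound hF C (Eventually.of_forall h)

def DD (c : G → Y → ℤ) (θ : ℝ) (f : Y → ℂ) (p : Y × G) : ℂ := ee (θ * c p.2 p.1) * f (p.2 • p.1)

theorem DD_meas (hS : Sys μ c) (θ : ℝ) {f : Y → ℂ} (hf : Measurable f) :
    Measurable (DD c θ f) := by
  unfold DD
  refine Measurable.mul ?_ ?_
  · refine ee_cont.measurable.comp (measurable_const.mul ?_)
    exact (Measurable.of_discrete (f := fun n : ℤ => (n : ℝ))).comp
      (hS.c_meas.comp measurable_swap)
  · exact hf.comp (hS.smul_meas.comp measurable_swap)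

theorem DD_norm (θ : ℝ) (f : Y → ℂ) (p : Y × G) : ‖DD c θ f p‖ = ‖f (p.2 • p.1)‖ := by
  unfold DD
  rw [norm_mul, ee_norm, one_mul]

theorem inv_int (hS : Sys μ c) {F : Y → ℝ} (hF : Measurable F) (g : G) :
    ∫ y, F (g • y) ∂μ = ∫ y, F y ∂μ := by
  have h1 := (hS.mp g).map_eq
  conv_rhs => rw [← h1]
  rw [integral_map (hS.mp g).measurable.aemeasurable hF.aestronglyMeasurable]

theorem polar (a b : ℂ) : ‖a - b‖ ^ 2 = ‖a‖ ^ 2 + ‖b‖ ^ 2 - 2 * (a * (starRingEnd ℂ) b).re := by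
  rw [← Complex.normSq_eq_norm_sq, ← Complex.normSq_eq_norm_sq, ← Complex.normSq_eq_norm_sq,
    Complex.normSq_sub]

/-- the energy identity -/
theorem energy (hS : Sys μ c) (θ : ℝ) {f : Y → ℂ} (hf : BM f) {X : ℝ} (hX : 1 < X) :
    ∫ y, ‖f y‖ ^ 2 ∂μ - (∫ y, tw c θ (bm X) f y * (starRingEnd ℂ) (f y) ∂μ).re =
      1 / 2 * ∫ y, ∫ g, ‖ee (θ * c g y) * f (g • y) - f y‖ ^ 2 ∂(bm X) ∂μ := by
  obtain ⟨hfm, C, hC⟩ := hf
  have hprob := hS.prob
  have hbm := bm_prob hX
  have hC0 : 0 ≤ C := (norm_nonneg _).trans (hC (Classical.choice (by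
    by_contra hne
    rw [not_nonempty_iff] at hne
    have h1 : μ univ = 0 := by
      rw [univ_eq_empty_iff.2 hne, measure_empty]
    rw [hprob.measure_univ] at h1
    exact one_ne_zero h1)))
  have hDm := DD_meas hS θ hfm
  have hDb : ∀ p, ‖DD c θ f p‖ ≤ C := fun p => by rw [DD_norm]; exact hC _
  have m1 : Measurable fun p : Y × G => f p.1 := hfm.comp measurable_fst
  have m2 : Measurable fun p : Y × G => f (p.2 • p.1) :=
    hfm.comp (hS.smul_meas.comp measurable_swap)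
  have i1 : Integrable (fun p : Y × G => ‖DD c θ f p - f p.1‖ ^ 2) (μ.prod (bm X)) := by
    refine bint ((hDm.sub m1).norm.pow_const 2).aestronglyMeasurable ((C + C) ^ 2) fun p => ?_
    rw [norm_pow, norm_norm]
    gcongr
    exact (norm_sub_le _ _).trans (add_le_add (hDb p) (hC _))
  have i2 : Integrable (fun p : Y × G => ‖f (p.2 • p.1)‖ ^ 2) (μ.prod (bm X)) := by
    refine bint (m2.norm.pow_const 2).aestronglyMeasurable (C ^ 2) fun p => ?_
    rw [norm_pow, norm_norm]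
    gcongr
    exact hC _
  have i3 : Integrable (fun p : Y × G => ‖f p.1‖ ^ 2) (μ.prod (bm X)) := by
    refine bint (m1.norm.pow_const 2).aestronglyMeasurable (C ^ 2) fun p => ?_
    rw [norm_pow, norm_norm]
    gcongr
    exact hC _
  have i4 : Integrable (fun p : Y × G => DD c θ f p * (starRingEnd ℂ) (f p.1))
      (μ.prod (bm X)) := by
    refine bint (hDm.mul (Complex.continuous_conj.measurable.comp m1)).aestronglyMeasurable
      (C * C) fun p => ?_
    rw [norm_mul, RCLike.norm_conj]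
    exact mul_le_mul (hDb p) (hC _) (norm_nonneg _) hC0
  have e1 : ∫ y, ∫ g, ‖ee (θ * c g y) * f (g • y) - f y‖ ^ 2 ∂(bm X) ∂μ =
      ∫ p, ‖DD c θ f p - f p.1‖ ^ 2 ∂(μ.prod (bm X)) := (integral_prod _ i1).symm
  have e2 : ∫ p, ‖DD c θ f p - f p.1‖ ^ 2 ∂(μ.prod (bm X)) =
      ∫ p : Y × G, ‖f (p.2 • p.1)‖ ^ 2 ∂(μ.prod (bm X)) +
        ∫ p : Y × G, ‖f p.1‖ ^ 2 ∂(μ.prod (bm X)) -
        2 * ∫ p : Y × G, (DD c θ f p * (starRingEnd ℂ) (f p.1)).re ∂(μ.prod (bm X)) := by
    have i23 : Integrable (fun p : Y × G => ‖f (p.2 • p.1)‖ ^ 2 + ‖f p.1‖ ^ 2)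
      (μ.prod (bm X)) := i2.add i3
    have i4' : Integrable (fun p : Y × G => 2 * (DD c θ f p * (starRingEnd ℂ) (f p.1)).re)
      (μ.prod (bm X)) := i4.re.const_mul 2
    rw [← integral_const_mul, ← integral_add i2 i3, ← integral_sub i23 i4']
    refine integral_congr_ae (Eventually.of_forall fun p => ?_)
    show ‖DD c θ f p - f p.1‖ ^ 2 = ‖f (p.2 • p.1)‖ ^ 2 + ‖f p.1‖ ^ 2 -
      2 * (DD c θ f p * (starRingEnd ℂ) (f p.1)).re
    rw [polar, DD_norm]
  have e3 : ∫ p : Y × G, ‖f (p.2 • p.1)‖ ^ 2 ∂(μ.prod (bm X)) = ∫ y, ‖f y‖ ^ 2 ∂μ := by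
    rw [integral_prod_symm _ i2]
    have h1 : ∀ g : G, ∫ y, ‖f (g • y)‖ ^ 2 ∂μ = ∫ y, ‖f y‖ ^ 2 ∂μ :=
      fun g => inv_int hS (hfm.norm.pow_const 2) g
    simp only [h1]
    rw [integral_const, probReal_univ, one_smul]
  have e4 : ∫ p : Y × G, ‖f p.1‖ ^ 2 ∂(μ.prod (bm X)) = ∫ y, ‖f y‖ ^ 2 ∂μ := by
    rw [integral_prod _ i3]
    simp only [integral_const, probReal_univ, one_smul]
  have e5 : ∫ p : Y × G, (DD c θ f p * (starRingEnd ℂ) (f p.1)).re ∂(μ.prod (bm X)) =
      (∫ y, tw c θ (bm X) f y * (starRingEnd ℂ) (f y) ∂μ).re := by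
    have h1 := integral_re i4
    have h2 : ∫ p : Y × G, DD c θ f p * (starRingEnd ℂ) (f p.1) ∂(μ.prod (bm X)) =
        ∫ y, tw c θ (bm X) f y * (starRingEnd ℂ) (f y) ∂μ := by
      rw [integral_prod _ i4]
      refine integral_congr_ae (Eventually.of_forall fun y => ?_)
      show ∫ g, DD c θ f (y, g) * (starRingEnd ℂ) (f y) ∂(bm X) = _
      rw [integral_mul_const]
      rfl
    rw [← h2]
    exact h1
  rw [e1, e2, e3, e4, e5]
  ring

/-- the covering inequality for functions -/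
theorem cov (hS : Sys μ c) {X k : ℝ} {d : ℤ} {s : Y → ℤ} (hk : 0 ≤ k)
    (hs : Measurable s) (y : Y)
    (hcov : ENNReal.ofReal k • (μ.map (fun y' => (y', s y' - s y)) +
      μ.map (fun y' => (y', s y' - s y + d))) ≤ (bm X).map (fun g => (g • y, c g y)))
    {F : Y × ℤ → ℝ} (hF : Measurable F) (h0 : ∀ p, 0 ≤ F p) {C : ℝ} (hC : ∀ p, F p ≤ C) :
    k * ∫ y', (F (y', s y' - s y) + F (y', s y' - s y + d)) ∂μ ≤
      ∫ g, F (g • y, c g y) ∂(bm X) := by
  have hprob := hS.prob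
  have hC' : ∀ p, ‖F p‖ ≤ C := fun p => by
    rw [Real.norm_of_nonneg (h0 p)]
    exact hC p
  have m1 : Measurable fun g : G => (g • y, c g y) :=
    (hS.smul_meas.comp (measurable_id.prodMk measurable_const)).prodMk
      (hS.c_meas.comp (measurable_id.prodMk measurable_const))
  have m2 : Measurable fun y' : Y => (y', s y' - s y) :=
    measurable_id.prodMk (hs.sub_const _)
  have m3 : Measurable fun y' : Y => (y', s y' - s y + d) :=
    measurable_id.prodMk ((hs.sub_const _).add_const _)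
  have j1 : Integrable F ((bm X).map (fun g => (g • y, c g y))) :=
    bint hF.aestronglyMeasurable C hC'
  have h1 := integral_mono_measure hcov (Eventually.of_forall h0) j1
  rw [integral_smul_measure, integral_add_measure (bint hF.aestronglyMeasurable C hC')
    (bint hF.aestronglyMeasurable C hC'), integral_map m1.aemeasurable hF.aestronglyMeasurable,
    integral_map m2.aemeasurable hF.aestronglyMeasurable,
    integral_map m3.aemeasurable hF.aestronglyMeasurable, ENNReal.toReal_ofReal hk,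
    smul_eq_mul] at h1
  have k2 : Integrable (fun y' => F (y', s y' - s y)) μ :=
    bint (hF.comp m2).aestronglyMeasurable C fun _ => hC' _
  have k3 : Integrable (fun y' => F (y', s y' - s y + d)) μ :=
    bint (hF.comp m3).aestronglyMeasurable C fun _ => hC' _
  rw [integral_add k2 k3]
  exact h1

theorem par (a b z : ℂ) : 1 / 2 * ‖a - b‖ ^ 2 ≤ ‖a - z‖ ^ 2 + ‖b - z‖ ^ 2 := by
  have h1 : ‖a - b‖ ≤ ‖a - z‖ + ‖b - z‖ := by
    calc ‖a - b‖ = ‖(a - z) - (b - z)‖ := by congr 1; ring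
      _ ≤ ‖a - z‖ + ‖b - z‖ := norm_sub_le _ _
  have h2 : ‖a - b‖ ^ 2 ≤ (‖a - z‖ + ‖b - z‖) ^ 2 := by gcongr
  nlinarith [sq_nonneg (‖a - z‖ - ‖b - z‖)]

theorem gap : GapStmt := by
  intro Y _ _ μ c hS
  obtain ⟨X, hX, d, hd, ε, hε, s, hs, hcov⟩ := hS.cover
  have hprob := hS.prob
  have hbm := bm_prob hX
  have hX1 : 0 < (X - 1)⁻¹ := inv_pos.2 (by linarith)
  obtain ⟨e, he⟩ : ∃ e : ℝ, e = (min ε 1).toReal := ⟨_, rfl⟩
  have hmin : min ε 1 ≠ ⊤ := ne_top_of_le_ne_top ENNReal.one_ne_top (min_le_right _ _)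
  have he0 : 0 < e := by
    rw [he]
    refine ENNReal.toReal_pos ?_ hmin
    intro h
    rcases min_eq_iff.1 h with h1 | h1
    · exact hε h1.1
    · exact one_ne_zero h1.1
  have heε : ENNReal.ofReal e ≤ ε := by
    rw [he, ENNReal.ofReal_toReal hmin]
    exact min_le_left _ _
  obtain ⟨k, hk⟩ : ∃ k : ℝ, k = (X - 1)⁻¹ * e := ⟨_, rfl⟩
  have hk0 : 0 < k := by rw [hk]; positivity
  have hcov' : ∀ y, ENNReal.ofReal k • (μ.map (fun y' => (y', s y' - s y)) +
      μ.map (fun y' => (y', s y' - s y + d))) ≤ (bm X).map (fun g => (g • y, c g y)) := by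
    intro y
    unfold bm
    rw [Measure.map_smul, hk, ENNReal.ofReal_mul hX1.le, mul_smul]
    refine Measure.le_iff.2 fun A hA => ?_
    have h1 := Measure.le_iff.1 (hcov y) A hA
    simp only [Measure.smul_apply, smul_eq_mul] at h1 ⊢
    refine mul_le_mul_right (le_trans ?_ h1) _
    exact mul_le_mul_left heε _
  refine ⟨X, k / 4, hX, by positivity, d, hd, ?_, ?_⟩
  · intro θ f hf
    rw [energy hS θ hf hX]
    obtain ⟨hfm, C, hC⟩ := hf
    have hfi : Integrable (fun y => ‖f y‖ ^ 2) μ := by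
      refine bint (hfm.norm.pow_const 2).aestronglyMeasurable (C ^ 2) fun p => ?_
      rw [norm_pow, norm_norm]
      gcongr
      exact hC _
    have h1 : ∀ y, k * (1 / 2 * ‖ee (d * θ) - 1‖ ^ 2 * ∫ y', ‖f y'‖ ^ 2 ∂μ) ≤
        ∫ g, ‖ee (θ * c g y) * f (g • y) - f y‖ ^ 2 ∂(bm X) := by
      intro y
      have hFm : Measurable fun p : Y × ℤ => ‖ee (θ * p.2) * f p.1 - f y‖ ^ 2 := by
        refine ((Measurable.mul ?_ (hfm.comp measurable_fst)).sub measurable_const).norm.pow_const 2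
        refine ee_cont.measurable.comp (measurable_const.mul ?_)
        exact (Measurable.of_discrete (f := fun n : ℤ => (n : ℝ))).comp measurable_snd
      have hFb : ∀ p : Y × ℤ, ‖ee (θ * p.2) * f p.1 - f y‖ ^ 2 ≤ (C + C) ^ 2 := by
        intro p
        gcongr
        refine (norm_sub_le _ _).trans (add_le_add ?_ (hC _))
        rw [norm_mul, ee_norm, one_mul]
        exact hC _
      have h2 := cov hS hk0.le hs y (hcov' y) hFm (fun p => by positivity) hFb
      refine le_trans ?_ h2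
      refine mul_le_mul_of_nonneg_left ?_ hk0.le
      rw [← integral_const_mul]
      refine integral_mono (hfi.const_mul _) ?_ fun y' => ?_
      · refine bint ?_ ((C + C) ^ 2 + (C + C) ^ 2) fun y' => ?_
        · refine (Measurable.add (hFm.comp ?_) (hFm.comp ?_)).aestronglyMeasurable
          · exact measurable_id.prodMk (hs.sub_const _)
          · exact measurable_id.prodMk ((hs.sub_const _).add_const _)
        · rw [Real.norm_of_nonneg (by positivity)]
          exact add_le_add (hFb (y', s y' - s y)) (hFb (y', s y' - s y + d))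
      · show 1 / 2 * ‖ee (d * θ) - 1‖ ^ 2 * ‖f y'‖ ^ 2 ≤
          ‖ee (θ * ((s y' - s y : ℤ) : ℝ)) * f y' - f y‖ ^ 2 +
          ‖ee (θ * ((s y' - s y + d : ℤ) : ℝ)) * f y' - f y‖ ^ 2
        refine le_trans (le_of_eq ?_) (par _ _ _)
        have h3 : ee (θ * ((s y' - s y + d : ℤ) : ℝ)) =
            ee (θ * ((s y' - s y : ℤ) : ℝ)) * ee (d * θ) := by
          rw [← ee_add]
          congr 1
          push_cast
          ring
        have h4 : ee (θ * ((s y' - s y : ℤ) : ℝ)) * f y' -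
            ee (θ * ((s y' - s y + d : ℤ) : ℝ)) * f y' =
            -(ee (θ * ((s y' - s y : ℤ) : ℝ)) * (ee (d * θ) - 1) * f y') := by
          rw [h3]; ring
        rw [h4, norm_neg, norm_mul, norm_mul, ee_norm, one_mul, mul_pow]
        ring
    have hDb : ∀ p, ‖DD c θ f p‖ ≤ C := fun p => by rw [DD_norm]; exact hC _
    have i1 : Integrable (fun p : Y × G => ‖DD c θ f p - f p.1‖ ^ 2) (μ.prod (bm X)) := by
      refine bint (((DD_meas hS θ hfm).sub (hfm.comp measurable_fst)).norm.pow_const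
        2).aestronglyMeasurable ((C + C) ^ 2) fun p => ?_
      rw [norm_pow, norm_norm]
      gcongr
      exact (norm_sub_le _ _).trans (add_le_add (hDb p) (hC _))
    have h5 : k * (1 / 2 * ‖ee (d * θ) - 1‖ ^ 2 * ∫ y', ‖f y'‖ ^ 2 ∂μ) ≤
        ∫ y, ∫ g, ‖ee (θ * c g y) * f (g • y) - f y‖ ^ 2 ∂(bm X) ∂μ := by
      calc k * (1 / 2 * ‖ee (d * θ) - 1‖ ^ 2 * ∫ y', ‖f y'‖ ^ 2 ∂μ)
          = ∫ _, k * (1 / 2 * ‖ee (d * θ) - 1‖ ^ 2 * ∫ y', ‖f y'‖ ^ 2 ∂μ) ∂μ := by
            rw [integral_const, probReal_univ, one_smul]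
        _ ≤ _ := integral_mono (integrable_const _) i1.integral_prod_left h1
    calc k / 4 * ‖ee (d * θ) - 1‖ ^ 2 * ∫ y, ‖f y‖ ^ 2 ∂μ
        = 1 / 2 * (k * (1 / 2 * ‖ee (d * θ) - 1‖ ^ 2 * ∫ y', ‖f y'‖ ^ 2 ∂μ)) := by ring
      _ ≤ _ := mul_le_mul_of_nonneg_left h5 (by norm_num)
  · intro f hf hf0
    rw [energy hS 0 hf hX]
    obtain ⟨hfm, C, hC⟩ := hf
    have hfi : Integrable (fun y => ‖f y‖ ^ 2) μ := by
      refine bint (hfm.norm.pow_const 2).aestronglyMeasurable (C ^ 2) fun p => ?_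
      rw [norm_pow, norm_norm]
      gcongr
      exact hC _
    have hfi' : Integrable f μ := bint hfm.aestronglyMeasurable C hC
    have h1 : ∀ y, k * (2 * (∫ y', ‖f y'‖ ^ 2 ∂μ + ‖f y‖ ^ 2)) ≤
        ∫ g, ‖ee (0 * c g y) * f (g • y) - f y‖ ^ 2 ∂(bm X) := by
      intro y
      have hFm : Measurable fun p : Y × ℤ => ‖ee (0 * p.2) * f p.1 - f y‖ ^ 2 := by
        refine ((Measurable.mul ?_ (hfm.comp measurable_fst)).sub measurable_const).norm.pow_const 2
        refine ee_cont.measurable.comp (measurable_const.mul ?_)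
        exact (Measurable.of_discrete (f := fun n : ℤ => (n : ℝ))).comp measurable_snd
      have hFb : ∀ p : Y × ℤ, ‖ee (0 * p.2) * f p.1 - f y‖ ^ 2 ≤ (C + C) ^ 2 := by
        intro p
        gcongr
        refine (norm_sub_le _ _).trans (add_le_add ?_ (hC _))
        rw [norm_mul, ee_norm, one_mul]
        exact hC _
      have h2 := cov hS hk0.le hs y (hcov' y) hFm (fun p => by positivity) hFb
      refine le_trans (le_of_eq ?_) h2
      congr 1
      have h3 : ∀ y' : Y, ‖ee (0 * ((s y' - s y : ℤ) : ℝ)) * f y' - f y‖ ^ 2 +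
          ‖ee (0 * ((s y' - s y + d : ℤ) : ℝ)) * f y' - f y‖ ^ 2 =
          2 * (‖f y'‖ ^ 2 + ‖f y‖ ^ 2 - 2 * (f y' * (starRingEnd ℂ) (f y)).re) := by
        intro y'
        rw [zero_mul, zero_mul, ee_zero, one_mul, polar]
        ring
      show _ = ∫ y', (‖ee (0 * ((s y' - s y : ℤ) : ℝ)) * f y' - f y‖ ^ 2 +
          ‖ee (0 * ((s y' - s y + d : ℤ) : ℝ)) * f y' - f y‖ ^ 2) ∂μ
      have h4 : Integrable (fun y' => f y' * (starRingEnd ℂ) (f y)) μ := hfi'.mul_const _
      have h5 : ∫ y', (f y' * (starRingEnd ℂ) (f y)).re ∂μ = 0 := by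
        have h6 := integral_re h4
        rw [integral_mul_const, hf0, zero_mul] at h6
        simpa using h6
      simp only [h3]
      have k1 : Integrable (fun y' => ‖f y'‖ ^ 2 + ‖f y‖ ^ 2) μ := hfi.add (integrable_const _)
      have k2 : Integrable (fun y' => 2 * (f y' * (starRingEnd ℂ) (f y)).re) μ :=
        h4.re.const_mul 2
      rw [integral_const_mul, integral_sub k1 k2, integral_add hfi (integrable_const _),
        integral_const_mul, h5, integral_const, probReal_univ, one_smul]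
      ring
    have hDb : ∀ p, ‖DD c 0 f p‖ ≤ C := fun p => by rw [DD_norm]; exact hC _
    have i1 : Integrable (fun p : Y × G => ‖DD c 0 f p - f p.1‖ ^ 2) (μ.prod (bm X)) := by
      refine bint (((DD_meas hS 0 hfm).sub (hfm.comp measurable_fst)).norm.pow_const
        2).aestronglyMeasurable ((C + C) ^ 2) fun p => ?_
      rw [norm_pow, norm_norm]
      gcongr
      exact (norm_sub_le _ _).trans (add_le_add (hDb p) (hC _))
    have h5 : k * (2 * (∫ y', ‖f y'‖ ^ 2 ∂μ + ∫ y', ‖f y'‖ ^ 2 ∂μ)) ≤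
        ∫ y, ∫ g, ‖ee (0 * c g y) * f (g • y) - f y‖ ^ 2 ∂(bm X) ∂μ := by
      calc k * (2 * (∫ y', ‖f y'‖ ^ 2 ∂μ + ∫ y', ‖f y'‖ ^ 2 ∂μ))
          = ∫ y, k * (2 * (∫ y', ‖f y'‖ ^ 2 ∂μ + ‖f y‖ ^ 2)) ∂μ := by
            rw [integral_const_mul, integral_const_mul, integral_add (integrable_const _) hfi,
              integral_const, probReal_univ, one_smul]
        _ ≤ _ := integral_mono ((((integrable_const _).add hfi).const_mul 2).const_mul k)
            i1.integral_prod_left h1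
    have h6 : 0 ≤ ∫ y', ‖f y'‖ ^ 2 ∂μ := integral_nonneg fun y' => by positivity
    calc k / 4 * ∫ y, ‖f y‖ ^ 2 ∂μ ≤ 2 * k * ∫ y, ‖f y‖ ^ 2 ∂μ :=
          mul_le_mul_of_nonneg_right (by linarith) h6
      _ = 1 / 2 * (k * (2 * (∫ y', ‖f y'‖ ^ 2 ∂μ + ∫ y', ‖f y'‖ ^ 2 ∂μ))) := by ring
      _ ≤ _ := mul_le_mul_of_nonneg_left h5 (by norm_num)

/-- the requested form -/
theorem main (_ : Basic2Stmt) : GapStmt := gap

end

end Pool.Agent.W397.BA
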